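import Pool.Agent.Helper54.UN.St

/-!
# Project UN, part (C), module NIN: walls and vertices between the radii
-/

set_option autoImplicit false

noncomputable section

namespace Pool.Agent.Helper58.UNC

open Set Filter Topology Pool.Agent.Helper71.UN Pool.Agent.Helper54.UN
open scoped ComplexConjugate

private theorem norm_om : ‖om‖ = 1 := by
  have h : ‖om‖ ^ 2 = 1 := by
    rw [← Complex.normSq_eq_norm_sq, Complex.normSq_apply, om_re, om_im]
    have := s3
    nlinarith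
  have h0 := norm_nonneg om
  nlinarith

private theorem norm_one_om : ‖(1 : ℂ) + om‖ = 1 := by
  have h : ‖(1 : ℂ) + om‖ ^ 2 = 1 := by
    rw [← Complex.normSq_eq_norm_sq, Complex.normSq_apply, Complex.add_re, Complex.add_im, om_re, om_im,
      Complex.one_re, Complex.one_im]
    have := s3
    nlinarith
  have h0 := norm_nonneg ((1 : ℂ) + om)
  nlinarith

private theorem norm_near {η : ℝ} {a : ℂ} (h : ‖a - (1 + om)‖ ≤ η) : ‖a‖ ≤ 1 + η := by
  calc ‖a‖ = ‖(1 + om) + (a - (1 + om))‖ := by congr 1; ring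
    _ ≤ ‖(1 : ℂ) + om‖ + ‖a - (1 + om)‖ := norm_add_le _ _
    _ ≤ 1 + η := by rw [norm_one_om]; linarith

/-- affine functional on a segment -/
private theorem lf_seg {p q A B x : ℂ} (hx : x ∈ segment ℝ A B) (hA : lf p q A ≤ 0) (hB : lf p q B ≤ 0) :
    lf p q x ≤ 0 := by
  rw [segment_eq_image'] at hx
  obtain ⟨t, ⟨h0, h1⟩, rfl⟩ := hx
  have e : A + t • (B - A) = A + (t : ℂ) * (B - A) := by rw [Complex.real_smul]
  show lf p q (A + t • (B - A)) ≤ 0
  rw [e, lf_comb]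
  have h2 : (1 - t) * lf p q A ≤ 0 := mul_nonpos_of_nonneg_of_nonpos (by linarith) hA
  have h3 : t * lf p q B ≤ 0 := mul_nonpos_of_nonneg_of_nonpos h0 hB
  linarith

private theorem norm_seg {r : ℝ} {A B x : ℂ} (hx : x ∈ segment ℝ A B) (hA : ‖A‖ ≤ r) (hB : ‖B‖ ≤ r) :
    ‖x‖ ≤ r := by
  have h := (convex_closedBall (0 : ℂ) r).segment_subset (mem_closedBall_zero_iff.2 hA)
    (mem_closedBall_zero_iff.2 hB)
  exact mem_closedBall_zero_iff.1 (h hx)

private theorem n5 {a x : ℂ} (h : lf 1 a x ≤ 0) : ¬ inH a x := fun hx => absurd hx.1.1 (not_lt.2 h)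
private theorem n1 {a x : ℂ} (h : lf a om x ≤ 0) : ¬ inH a x := fun hx => absurd hx.1.2.1 (not_lt.2 h)
private theorem n6 {a x : ℂ} (h : lf om (-1) x ≤ 0) : ¬ inH a x := fun hx => absurd hx.1.2.2 (not_lt.2 h)

/-- **NIN** -/
theorem hNIN : StNIN := by
  intro η a b τ s θ hη0 _ hC σ hσ0 hσ1 hG
  have ha := norm_near hC.ha
  have hb := norm_near hC.hb
  have ho : ‖om‖ ≤ 1 + η := by rw [norm_om]; linarith
  have h1 : ‖(1 : ℂ)‖ ≤ 1 + η := by rw [norm_one]; linarith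
  have hm1 : ‖(-1 : ℂ)‖ ≤ 1 + η := by rw [norm_neg, norm_one]; linarith
  have s0 := hC.s0
  have s1 := hC.s1
  have θ0 := hC.θ0
  have θ1 := hC.θ1
  have hab : ‖a + (θ : ℂ) * (b - a)‖ ≤ 1 + η := by
    refine norm_seg (A := a) (B := b) ?_ ha hb
    rw [segment_eq_image']
    exact ⟨θ, ⟨θ0.le, θ1.le⟩, by show a + θ • (b - a) = _; rw [Complex.real_smul]⟩
  have ht : ‖τ‖ ≤ 1 + η := by
    refine norm_seg (A := om) (B := a + (θ : ℂ) * (b - a)) ?_ ho hab
    rw [segment_eq_image']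
    refine ⟨s, ⟨s0.le, by linarith⟩, ?_⟩
    show om + s • (a + (θ : ℂ) * (b - a) - om) = τ
    rw [Complex.real_smul, hC.hτ]
    ring
  refine ⟨?_, n5 hG.f5g.le, ?_⟩
  · intro i x hx
    fin_cases i
    · have hx' : x ∈ segment ℝ τ a := hx
      exact ⟨n1 (lf_seg hx' hG.f1t.le (lf_start a om).le), norm_seg hx' ht ha⟩
    · have hx' : x ∈ segment ℝ om a := hx
      exact ⟨n1 (lf_seg hx' (lf_end a om).le (lf_start a om).le), norm_seg hx' ho ha⟩
    · have hx' : x ∈ segment ℝ om b := hx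
      exact ⟨n1 (lf_seg hx' (lf_end a om).le hG.f1b.le), norm_seg hx' ho hb⟩
    · have hx' : x ∈ segment ℝ τ b := hx
      exact ⟨n1 (lf_seg hx' hG.f1t.le hG.f1b.le), norm_seg hx' ht hb⟩
    · have hx' : x ∈ segment ℝ 1 b := hx
      exact ⟨n5 (lf_seg hx' (lf_start 1 a).le hG.f5b.le), norm_seg hx' h1 hb⟩
    · have hx' : x ∈ segment ℝ 1 a := hx
      exact ⟨n5 (lf_seg hx' (lf_start 1 a).le (lf_end 1 a).le), norm_seg hx' h1 ha⟩
    · have hx' : x ∈ segment ℝ om (-1) := hx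
      exact ⟨n6 (lf_seg hx' (lf_start om (-1)).le (lf_end om (-1)).le), norm_seg hx' ho hm1⟩
  · refine norm_seg (A := b) (B := -1) ?_ hb hm1
    rw [segment_eq_image']
    refine ⟨(σ : ℝ), ⟨by exact_mod_cast hσ0.le, by exact_mod_cast hσ1.le⟩, ?_⟩
    show b + (σ : ℝ) • (-1 - b) = _
    rw [Complex.real_smul]
    push_cast
    ring

end Pool.Agent.Helper58.UNC
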